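import Pool.Agent.Helper33.DP.Sheet

/-! Row STR of the sheet DP (MP_fcb106_co): the structure lemma. -/

set_option autoImplicit false

namespace Pool.Agent.Helper95.PL

open Finset Pool.Agent.Helper33.DP

theorem mem_comp {w : ℕ} {G₁ G₂ : Gr w} {a b : Fin w} :
    (a, b) ∈ comp G₁ G₂ ↔ ∃ x, (a, x) ∈ G₁ ∧ (x, b) ∈ G₂ := by
  simp [comp]

/-- the image of `G₁` under a perfect matching of `G₂` -/
def im1 {w : ℕ} (G₁ : Gr w) (τ : Equiv.Perm (Fin w)) : Gr w :=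
  G₁.map (Equiv.prodCongr (Equiv.refl _) τ).toEmbedding

/-- the image of `G₂` under a perfect matching of `G₁` -/
def im2 {w : ℕ} (G₂ : Gr w) (σ : Equiv.Perm (Fin w)) : Gr w :=
  G₂.map (Equiv.prodCongr σ.symm (Equiv.refl _)).toEmbedding

theorem mem_im1 {w : ℕ} {G₁ : Gr w} {τ : Equiv.Perm (Fin w)} {a b : Fin w} :
    (a, b) ∈ im1 G₁ τ ↔ (a, τ.symm b) ∈ G₁ := by
  unfold im1
  rw [mem_map]
  constructor
  · rintro ⟨⟨a', x⟩, h, e⟩
    simp only [Equiv.coe_toEmbedding, Equiv.prodCongr_apply, Prod.map_apply, Equiv.refl_apply,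
      Prod.mk.injEq] at e
    obtain ⟨rfl, rfl⟩ := e
    simpa using h
  · intro h
    exact ⟨(a, τ.symm b), h, by simp⟩

theorem mem_im2 {w : ℕ} {G₂ : Gr w} {σ : Equiv.Perm (Fin w)} {a b : Fin w} :
    (a, b) ∈ im2 G₂ σ ↔ (σ a, b) ∈ G₂ := by
  unfold im2
  rw [mem_map]
  constructor
  · rintro ⟨⟨x, b'⟩, h, e⟩
    simp only [Equiv.coe_toEmbedding, Equiv.prodCongr_apply, Prod.map_apply, Equiv.refl_apply,
      Prod.mk.injEq] at e
    obtain ⟨rfl, rfl⟩ := e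
    simpa using h
  · intro h
    exact ⟨(σ a, b), h, by simp⟩

theorem STR : ST_STR := by
  intro w G G₁ G₂ h1 h2 hG
  have s1 : ∀ τ, PM G₂ τ → im1 G₁ τ ⊆ comp G₁ G₂ := by
    rintro τ hτ ⟨a, b⟩ hab
    rw [mem_im1] at hab
    refine mem_comp.2 ⟨_, hab, ?_⟩
    simpa using hτ (τ.symm b)
  have s2 : ∀ σ, PM G₁ σ → im2 G₂ σ ⊆ comp G₁ G₂ := by
    rintro σ hσ ⟨a, b⟩ hab
    rw [mem_im2] at hab
    exact mem_comp.2 ⟨_, hσ a, hab⟩
  have c1 : ∀ τ, (im1 G₁ τ).card = G₁.card := fun τ => card_map _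
  have c2 : ∀ σ, (im2 G₂ σ).card = G₂.card := fun σ => card_map _
  refine ⟨?_, ?_⟩
  · obtain ⟨τ, hτ⟩ := h2.ex
    refine ⟨?_, fun he => ⟨?_, ?_⟩⟩
    · rw [← c1 τ]
      exact card_le_card ((s1 τ hτ).trans hG)
    · have h3 : im1 G₁ τ = G := eq_of_subset_of_card_le ((s1 τ hτ).trans hG) (by rw [c1, he])
      exact Subset.antisymm hG (by rw [← h3]; exact s1 τ hτ)
    · intro a x b hab hxb
      obtain ⟨τ', hτ', e⟩ := h2.edge x b hxb
      have h3 : im1 G₁ τ' = G := eq_of_subset_of_card_le ((s1 τ' hτ').trans hG) (by rw [c1, he])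
      rw [← h3, mem_im1, ← e] at hab
      simpa using hab
  · obtain ⟨σ, hσ⟩ := h1.ex
    refine ⟨?_, fun he => ⟨?_, ?_⟩⟩
    · rw [← c2 σ]
      exact card_le_card ((s2 σ hσ).trans hG)
    · have h3 : im2 G₂ σ = G := eq_of_subset_of_card_le ((s2 σ hσ).trans hG) (by rw [c2, he])
      exact Subset.antisymm hG (by rw [← h3]; exact s2 σ hσ)
    · intro a x b hab hax
      obtain ⟨σ', hσ', e⟩ := h1.edge a x hax
      have h3 : im2 G₂ σ' = G := eq_of_subset_of_card_le ((s2 σ' hσ').trans hG) (by rw [c2, he])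
      rw [← h3, mem_im2, e] at hab
      exact hab

end Pool.Agent.Helper95.PL
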