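import Pool.Agent.Helper33.DP3.Sheet
import Pool.Agent.Helper59.PL.DS1

/-! Rows BB1, BB2, BB3 of the sheet DP3 (MP_fcb106_co). -/

set_option autoImplicit false

namespace Pool.Agent.Helper95.PL

open Finset Pool.Agent.Helper33.DP Pool.Agent.Helper33.DP3

theorem BB1 : ST_BB1 := by
  intro w P g h0 hr hc hg
  refine ⟨?_, fun S => ?_⟩
  · rw [sum_comm]
    simp_rw [← sum_mul, hc, one_mul]
    exact hg.1
  · have hD : (Matrix.of P) ∈ doublyStochastic ℝ (Fin w) := by
      rw [mem_doublyStochastic_iff_sum]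
      exact ⟨fun i j => h0 i j, fun i => hr i, fun j => hc j⟩
    obtain ⟨θ, t0, t1, -, -, tf⟩ := Pool.Agent.Helper59.PL.birk hD
    have e1 := tf (fun a b => if a ∈ S then g b else 0)
    have e2 : ∑ a, ∑ b, (Matrix.of P) a b * (if a ∈ S then g b else 0) =
        ∑ x ∈ S, ∑ b, P x b * g b := by
      rw [← sum_filter_add_sum_filter_not univ (fun a => a ∈ S)]
      have z : ∑ a ∈ univ.filter (fun a => ¬ a ∈ S),
          ∑ b, (Matrix.of P) a b * (if a ∈ S then g b else 0) = 0 := by
        refine sum_eq_zero fun a ha => sum_eq_zero fun b _ => ?_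
        rw [if_neg (mem_filter.1 ha).2, mul_zero]
      rw [z, add_zero, filter_mem_eq_inter, univ_inter]
      refine sum_congr rfl fun a ha => sum_congr rfl fun b _ => ?_
      rw [if_pos ha]
      rfl
    rw [e2] at e1
    rw [e1]
    have h1 : ∀ σ : Equiv.Perm (Fin w), ∑ a, (if a ∈ S then g (σ a) else 0) ≤
        (S.card : ℝ) * (w - S.card : ℝ) := by
      intro σ
      have e3 : ∑ a, (if a ∈ S then g (σ a) else 0) = ∑ x ∈ S.map σ.toEmbedding, g x := by
        rw [sum_map, ← sum_filter, filter_mem_eq_inter, univ_inter]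
        rfl
      rw [e3]
      have := hg.2 (S.map σ.toEmbedding)
      rwa [card_map] at this
    calc ∑ σ, θ σ * ∑ a, (if a ∈ S then g (σ a) else 0)
        ≤ ∑ σ, θ σ * ((S.card : ℝ) * (w - S.card : ℝ)) :=
          sum_le_sum fun σ _ => mul_le_mul_of_nonneg_left (h1 σ) (t0 σ)
      _ = _ := by rw [← sum_mul, t1, one_mul]

theorem BB2 : ST_BB2 := by
  intro w c g h0 h1 hg
  refine ⟨?_, fun S => ?_⟩
  · rw [sum_comm]
    simp_rw [← mul_sum]
    refine sum_eq_zero fun b _ => ?_
    rw [(hg b).1, mul_zero]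
  · rw [sum_comm]
    simp_rw [← mul_sum]
    calc ∑ b, c b * ∑ a ∈ S, g a b ≤ ∑ b, c b * ((S.card : ℝ) * (w - S.card : ℝ)) :=
          sum_le_sum fun b _ => mul_le_mul_of_nonneg_left ((hg b).2 S) (h0 b)
      _ = _ := by rw [← sum_mul, h1, one_mul]

theorem BB3 : ST_BB3 := by
  intro w g hg x
  have hw : 1 ≤ w := lt_of_le_of_lt (Nat.zero_le _) x.2
  have h1 := hg.2 {x}
  rw [sum_singleton, card_singleton] at h1
  have h2 := hg.2 (univ.erase x)
  have h3 : ∑ y ∈ univ.erase x, g y = - g x := by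
    have := sum_erase_add univ g (mem_univ x)
    rw [hg.1] at this
    linarith
  rw [h3, card_erase_of_mem (mem_univ x), card_univ, Fintype.card_fin, Nat.cast_sub hw] at h2
  push_cast at h1 h2
  rw [abs_le]
  constructor <;> nlinarith

/-- the zero vector -/
theorem BB_zero {w : ℕ} : BB (fun _ : Fin w => (0 : ℝ)) := by
  refine ⟨by simp, fun S => ?_⟩
  have h : (S.card : ℝ) ≤ w := by
    have := card_le_univ S
    rw [Fintype.card_fin] at this
    exact_mod_cast this
  simp only [sum_const_zero]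
  exact mul_nonneg (by positivity) (by linarith)

end Pool.Agent.Helper95.PL
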