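import Pool.Agent.Helper33.DP3.Sheet

/-! Row LR of the sheet DP3 (MP_fcb106_co): feedback rounding. -/

set_option autoImplicit false

namespace Pool.Agent.Helper95.PL

open Finset Pool.Agent.Helper33.DP Pool.Agent.Helper33.DP3

/-- the exchange vector -/
noncomputable def ex {w : ℕ} (x x' : Fin w) (η : ℝ) (z : Fin w) : ℝ :=
  (if z = x then η else 0) - (if z = x' then η else 0)

theorem sum_ex {w : ℕ} (x x' : Fin w) (η : ℝ) (S : Finset (Fin w)) :
    ∑ z ∈ S, ex x x' η z = (if x ∈ S then η else 0) - (if x' ∈ S then η else 0) := by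
  unfold ex
  rw [sum_sub_distrib, sum_ite_eq', sum_ite_eq']

/-- an exchange against the current error -/
theorem BB_ex {w : ℕ} {g : Fin w → ℝ} (hg : BB g) {x x' : Fin w} {η : ℝ} (h0 : 0 ≤ η)
    (h1 : η ≤ 1) (hx : x ≠ x') (hle : g x ≤ g x') : BB (fun z => g z + ex x x' η z) := by
  refine ⟨?_, fun S => ?_⟩
  · rw [sum_add_distrib, hg.1, sum_ex]
    simp
  · rw [sum_add_distrib, sum_ex]
    have hS := hg.2 S
    by_cases hxS : x ∈ S
    · by_cases hx'S : x' ∈ S
      · simpa [hxS, hx'S] using hS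
      · rw [if_pos hxS, if_neg hx'S]
        have h2 := hg.2 (S.erase x)
        have h3 := hg.2 (insert x' S)
        have e2 : ∑ z ∈ S.erase x, g z = ∑ z ∈ S, g z - g x := by
          have := sum_erase_add S g hxS
          linarith
        have e3 : ∑ z ∈ insert x' S, g z = g x' + ∑ z ∈ S, g z := sum_insert hx'S
        have hc : 1 ≤ S.card := card_pos.2 ⟨x, hxS⟩
        rw [e2, card_erase_of_mem hxS, Nat.cast_sub hc] at h2
        rw [e3, card_insert_of_notMem hx'S] at h3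
        push_cast at h2 h3
        nlinarith
    · rw [if_neg hxS]
      have : 0 ≤ (if x' ∈ S then η else 0) := by split_ifs <;> linarith
      linarith

/-- the number of entries which are not integers -/
noncomputable def NI {w : ℕ} (y : Fin w → Fin w → ℝ) : ℕ :=
  by classical exact (univ.filter (fun p : Fin w × Fin w => ∀ k : ℕ, y p.1 p.2 ≠ k)).card

theorem NI_lt {w : ℕ} {y y₁ : Fin w → Fin w → ℝ} (h : ∀ b x k, y b x = ((k : ℕ) : ℝ) →
    ∃ k' : ℕ, y₁ b x = k') {b x : Fin w} (h1 : ∀ k : ℕ, y b x ≠ k) {k : ℕ} (h2 : y₁ b x = k) :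
    NI y₁ < NI y := by
  classical
  unfold NI
  refine card_lt_card ?_
  rw [ssubset_iff_of_subset]
  · refine ⟨(b, x), mem_filter.2 ⟨mem_univ _, h1⟩, fun hm => ?_⟩
    exact (mem_filter.1 hm).2 k h2
  · intro p hp
    refine mem_filter.2 ⟨mem_univ _, fun k hk => ?_⟩
    obtain ⟨k', hk'⟩ := h p.1 p.2 k hk
    exact (mem_filter.1 hp).2 k' hk'

/-- a second entry which is not an integer -/
theorem exists_second {w : ℕ} {y : Fin w → ℝ} {n : ℕ} (h0 : ∀ x, 0 ≤ y x)
    (hs : ∑ x, y x = n) {x : Fin w} (hx : ∀ k : ℕ, y x ≠ k) :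
    ∃ x', x ≠ x' ∧ ∀ k : ℕ, y x' ≠ k := by
  by_contra hcon
  push Not at hcon
  have h1 : ∀ x', x' ≠ x → ∃ k : ℕ, y x' = k := fun x' hx' => hcon x' (Ne.symm hx')
  choose! k hk using h1
  have h2 := sum_erase_add univ y (mem_univ x)
  rw [hs] at h2
  have h3 : ∑ z ∈ univ.erase x, y z = ((∑ z ∈ univ.erase x, k z : ℕ) : ℝ) := by
    push_cast
    exact sum_congr rfl fun z hz => hk z (ne_of_mem_erase hz)
  rw [h3] at h2
  have h4 : (∑ z ∈ univ.erase x, k z) ≤ n := by
    have := h0 x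
    have h5 : ((∑ z ∈ univ.erase x, k z : ℕ) : ℝ) ≤ n := by linarith
    exact_mod_cast h5
  refine hx (n - ∑ z ∈ univ.erase x, k z) ?_
  rw [Nat.cast_sub h4]
  linarith

theorem lr_core {w : ℕ} (n : Fin w → ℕ) : ∀ (N : ℕ) (g : Fin w → ℝ) (y : Fin w → Fin w → ℝ),
    NI y = N → BB g → (∀ b x, 0 ≤ y b x) → (∀ b, ∑ x, y b x = n b) →
    ∃ y' : Fin w → Fin w → ℕ, (∀ b, ∑ x, y' b x = n b) ∧
      (∀ b x, ⌊y b x⌋₊ ≤ y' b x ∧ y' b x ≤ ⌈y b x⌉₊) ∧
      BB (fun x => g x + ∑ b, ((y' b x : ℝ) - y b x)) := by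
  intro N
  induction N using Nat.strong_induction_on with
  | _ N ih =>
  intro g y hN hg h0 hs
  by_cases hall : ∀ b x, ∃ k : ℕ, y b x = k
  · choose k hk using hall
    refine ⟨k, fun b => ?_, fun b x => ?_, ?_⟩
    · have := hs b
      simp_rw [hk] at this
      exact_mod_cast this
    · rw [hk, Nat.floor_natCast, Nat.ceil_natCast]
      exact ⟨le_rfl, le_rfl⟩
    · simp_rw [hk]
      simpa using hg
  · push Not at hall
    obtain ⟨b, x₀, hx₀⟩ := hall
    obtain ⟨x₁, hne, hx₁⟩ := exists_second (h0 b) (hs b) hx₀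
    -- choose the order
    obtain ⟨x, x', hxx, hnx, hnx', hle⟩ : ∃ x x' : Fin w, x ≠ x' ∧ (∀ k : ℕ, y b x ≠ k) ∧
        (∀ k : ℕ, y b x' ≠ k) ∧ g x ≤ g x' := by
      rcases le_total (g x₀) (g x₁) with h | h
      · exact ⟨x₀, x₁, hne, hx₀, hx₁, h⟩
      · exact ⟨x₁, x₀, hne.symm, hx₁, hx₀, h⟩
    set η : ℝ := min ((⌈y b x⌉₊ : ℝ) - y b x) (y b x' - (⌊y b x'⌋₊ : ℝ)) with hη
    have hc1 : y b x < ⌈y b x⌉₊ := lt_of_le_of_ne (Nat.le_ceil _) (hnx _)
    have hf1 : (⌊y b x'⌋₊ : ℝ) < y b x' := lt_of_le_of_ne (Nat.floor_le (h0 _ _)) (hnx' _).symm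
    have hc2 : (⌈y b x⌉₊ : ℝ) < y b x + 1 := Nat.ceil_lt_add_one (h0 _ _)
    have hη0 : 0 < η := lt_min (by linarith) (by linarith)
    have hη1 : η ≤ 1 := (min_le_left _ _).trans (by linarith)
    have hηc : η ≤ (⌈y b x⌉₊ : ℝ) - y b x := min_le_left _ _
    have hηf : η ≤ y b x' - (⌊y b x'⌋₊ : ℝ) := min_le_right _ _
    set y₁ : Fin w → Fin w → ℝ := fun b' z => if b' = b then y b z + ex x x' η z else y b' z
      with hy₁
    have hbx : y₁ b x = y b x + η := by simp [hy₁, ex, hxx]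
    have hbx' : y₁ b x' = y b x' - η := by
      simp [hy₁, ex, hxx.symm]
      ring
    have hbz : ∀ z, z ≠ x → z ≠ x' → y₁ b z = y b z := by
      intro z h1 h2
      simp [hy₁, ex, h1, h2]
    have hb'z : ∀ b' z, b' ≠ b → y₁ b' z = y b' z := by
      intro b' z h1
      simp [hy₁, h1]
    -- bounds
    have hbd : ∀ b' z, (⌊y b' z⌋₊ : ℝ) ≤ y₁ b' z ∧ y₁ b' z ≤ (⌈y b' z⌉₊ : ℝ) := by
      intro b' z
      by_cases h1 : b' = b
      · subst h1
        by_cases h2 : z = x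
        · subst h2
          rw [hbx]
          exact ⟨(Nat.floor_le (h0 _ _)).trans (by linarith), by linarith⟩
        · by_cases h3 : z = x'
          · subst h3
            rw [hbx']
            exact ⟨by linarith, (by linarith : y b' z - η ≤ y b' z).trans (Nat.le_ceil _)⟩
          · rw [hbz z h2 h3]
            exact ⟨Nat.floor_le (h0 _ _), Nat.le_ceil _⟩
      · rw [hb'z b' z h1]
        exact ⟨Nat.floor_le (h0 _ _), Nat.le_ceil _⟩
    have hnn : ∀ b' z, 0 ≤ y₁ b' z := fun b' z => (Nat.cast_nonneg _).trans (hbd b' z).1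
    have hsum : ∀ b', ∑ z, y₁ b' z = n b' := by
      intro b'
      by_cases h1 : b' = b
      · subst h1
        have : ∀ z, y₁ b' z = y b' z + ex x x' η z := fun z => by simp [hy₁]
        simp_rw [this]
        rw [sum_add_distrib, sum_ex, hs]
        simp
      · simp_rw [hb'z b' _ h1]
        exact hs b'
    have hint : ∀ b' z k, y b' z = ((k : ℕ) : ℝ) → ∃ k' : ℕ, y₁ b' z = k' := by
      intro b' z k hk
      by_cases h1 : b' = b
      · subst h1
        have h2 : z ≠ x := fun h => hnx k (h ▸ hk)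
        have h3 : z ≠ x' := fun h => hnx' k (h ▸ hk)
        exact ⟨k, by rw [hbz z h2 h3, hk]⟩
      · exact ⟨k, by rw [hb'z b' z h1, hk]⟩
    have hlt : NI y₁ < N := by
      rw [← hN]
      rcases min_choice ((⌈y b x⌉₊ : ℝ) - y b x) (y b x' - (⌊y b x'⌋₊ : ℝ)) with h | h
      · refine NI_lt hint hnx (k := ⌈y b x⌉₊) ?_
        rw [hbx, hη, h]
        ring
      · refine NI_lt hint hnx' (k := ⌊y b x'⌋₊) ?_
        rw [hbx', hη, h]
        ring
    have hBB : BB (fun z => g z + ex x x' η z) := BB_ex hg hη0.le hη1 hxx hle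
    obtain ⟨y', hy's, hy'b, hy'B⟩ := ih (NI y₁) hlt _ y₁ rfl hBB hnn hsum
    refine ⟨y', hy's, fun b' z => ⟨?_, ?_⟩, ?_⟩
    · exact (Nat.le_floor (hbd b' z).1).trans (hy'b b' z).1
    · exact (hy'b b' z).2.trans (Nat.ceil_le.2 (hbd b' z).2)
    · have e : (fun z => g z + ex x x' η z + ∑ b', ((y' b' z : ℝ) - y₁ b' z)) =
          fun z => g z + ∑ b', ((y' b' z : ℝ) - y b' z) := by
        funext z
        have h1 : ∑ b', y₁ b' z = ∑ b', y b' z + ex x x' η z := by
          have h2 : ∀ b', y₁ b' z = y b' z + if b' = b then ex x x' η z else 0 := by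
            intro b'
            by_cases h3 : b' = b
            · subst h3; simp [hy₁]
            · simp [hy₁, h3]
          simp_rw [h2]
          rw [sum_add_distrib, sum_ite_eq']
          simp
        rw [sum_sub_distrib, sum_sub_distrib, h1]
        ring
      rw [e] at hy'B
      exact hy'B

theorem LR : ST_LR := by
  intro w g y n hg h0 hs
  obtain ⟨y', h1, h2, h3⟩ := lr_core n (NI y) g y rfl hg h0 hs
  refine ⟨y', h1, fun b x => ?_, fun b x h => ?_, h3⟩
  · have h4 : ((⌊y b x⌋₊ : ℕ) : ℝ) ≤ y' b x := by exact_mod_cast (h2 b x).1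
    have h5 : (y' b x : ℝ) ≤ (⌈y b x⌉₊ : ℕ) := by exact_mod_cast (h2 b x).2
    have h6 : (⌈y b x⌉₊ : ℝ) < y b x + 1 := Nat.ceil_lt_add_one (h0 _ _)
    have h7 : y b x < ⌊y b x⌋₊ + 1 := Nat.lt_floor_add_one _
    rw [abs_lt]
    constructor <;> linarith
  · have := (h2 b x).2
    rw [h, Nat.ceil_zero] at this
    exact Nat.le_zero.1 this

end Pool.Agent.Helper95.PL
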